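import Pool.Agent.Q144.PMf

set_option autoImplicit false

/-! Connectivity of the polytope move graph under a volume window: complete answer. -/

open MeasureTheory Set

namespace Pool.Agent.Results.MP_208a82_co.VolumeWindow

/-- a full-dimensional polytope of `ℝ^d`: the convex hull of a finite set, with nonempty
interior -/
def IsPolytope {d : ℕ} (P : Set (EuclideanSpace ℝ (Fin d))) : Prop :=
  (∃ S : Set (EuclideanSpace ℝ (Fin d)), S.Finite ∧ P = convexHull ℝ S) ∧ (interior P).Nonempty

/-- the volume of a polytope -/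
noncomputable def vol {d : ℕ} (P : Set (EuclideanSpace ℝ (Fin d))) : ℝ := (volume P).toReal

/-- `Q` is obtained from `P` by the insertion of a point `x`: `Q` is the convex hull of `P` and
`x`, and the vertex set (set of extreme points) of `Q` is that of `P` together with `x` -/
def Insertion {d : ℕ} (P Q : Set (EuclideanSpace ℝ (Fin d))) : Prop :=
  ∃ x : EuclideanSpace ℝ (Fin d), Q = convexHull ℝ (P ∪ {x}) ∧
    Q.extremePoints ℝ = P.extremePoints ℝ ∪ {x}

/-- The graph `Γ_I(d)`: its vertices are the full-dimensional polytopes of `ℝ^d` with volume in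
`I`, two different polytopes being adjacent when one is obtained from the other by an
insertion. -/
def Gam (d : ℕ) (I : Set ℝ) :
    SimpleGraph {P : Set (EuclideanSpace ℝ (Fin d)) // IsPolytope P ∧ vol P ∈ I} where
  Adj P Q := P ≠ Q ∧ (Insertion P.1 Q.1 ∨ Insertion Q.1 P.1)
  symm := ⟨fun _ _ h => ⟨h.1.symm, h.2.symm⟩⟩
  loopless := ⟨fun _ h => h.1 rfl⟩

/-- **Complete answer.**  For `d ≥ 2` and a non-trivial interval `I ⊆ (0, ∞)` the graph `Γ_I(d)`
is connected if and only if `I` has no greatest element. -/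
theorem result (d : ℕ) (hd : 2 ≤ d) (I : Set ℝ) (hI0 : I ⊆ Ioi 0) (hI : I.OrdConnected)
    (hne : I.Nontrivial) : (Gam d I).Connected ↔ ¬ ∃ b, IsGreatest I b := by
  have hreach : ∀ P Q : {P : Set (EuclideanSpace ℝ (Fin d)) // IsPolytope P ∧ vol P ∈ I},
      (Gam d I).Reachable P Q ↔ Q144.PM.Conn I P.1 Q.1 := by
    intro P Q
    constructor
    · rintro ⟨p⟩
      induction p with
      | nil => exact Relation.ReflTransGen.refl
      | @cons u v w h _ ih => exact Relation.ReflTransGen.head ⟨u.2, v.2, h.2⟩ ih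
    · intro h
      have key : ∀ X : Set (EuclideanSpace ℝ (Fin d)), Q144.PM.Conn I P.1 X →
          ∀ hX : IsPolytope X ∧ vol X ∈ I, (Gam d I).Reachable P ⟨X, hX⟩ := by
        intro X hX
        unfold Q144.PM.Conn at hX
        induction hX with
        | refl => intro hX; exact SimpleGraph.Reachable.refl _
        | @tail Y Z _ h2 ih =>
          intro hZ
          have h1 := ih h2.1
          refine h1.trans ?_
          by_cases hYZ : Y = Z
          · subst hYZ
            exact SimpleGraph.Reachable.refl _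
          · have hadj : (Gam d I).Adj ⟨Y, h2.1⟩ ⟨Z, hZ⟩ :=
              ⟨fun e => hYZ (congrArg Subtype.val e), h2.2.2⟩
            exact hadj.reachable
      exact key Q.1 h Q.2
  constructor
  · rintro hconn ⟨b, hbI, hb⟩
    have hb' : ∀ v ∈ I, v ≤ b := fun v hv => hb hv
    obtain ⟨c, hcI, hcb⟩ : ∃ c ∈ I, c ≠ b := by
      obtain ⟨x, hx, y, hy, hxy⟩ := hne
      by_cases h : x = b
      · exact ⟨y, hy, fun e => hxy (h.trans e.symm)⟩
      · exact ⟨x, hx, h⟩
    obtain ⟨W, hWs, hWi, hWv⟩ := Q144.PM.exists_simplex hd (hI0 hbI)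
    obtain ⟨W', -, hWi', hWv'⟩ := Q144.PM.exists_simplex hd (hI0 hcI)
    have h1 : IsPolytope (Q144.PM.hull W) ∧ vol (Q144.PM.hull W) ∈ I :=
      ⟨Q144.PM.isPoly_hull hWi, by
        change Q144.PM.vol (Q144.PM.hull W) ∈ I
        rw [hWv]; exact hbI⟩
    have h2 : IsPolytope (Q144.PM.hull W') ∧ vol (Q144.PM.hull W') ∈ I :=
      ⟨Q144.PM.isPoly_hull hWi', by
        change Q144.PM.vol (Q144.PM.hull W') ∈ I
        rw [hWv']; exact hcI⟩
    have h3 := (hreach ⟨_, h1⟩ ⟨_, h2⟩).1 (hconn.preconnected _ _)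
    have h4 : Q144.PM.hull W' = Q144.PM.hull W := by
      have key : ∀ X : Set (EuclideanSpace ℝ (Fin d)), Q144.PM.Conn I (Q144.PM.hull W) X →
          X = Q144.PM.hull W := by
        intro X hX
        unfold Q144.PM.Conn at hX
        induction hX with
        | refl => rfl
        | tail _ h2 ih =>
          rw [ih] at h2
          exact Q144.PM.isolated hb' hWs hWi hWv h2
      exact key _ h3
    rw [h4, hWv] at hWv'
    exact hcb hWv'.symm
  · intro hmax
    have hmax' : ∀ v ∈ I, ∃ w ∈ I, v < w := by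
      intro v hv
      by_contra hcon
      push Not at hcon
      exact hmax ⟨v, hv, fun w hw => hcon w hw⟩
    have : Nonempty {P : Set (EuclideanSpace ℝ (Fin d)) // IsPolytope P ∧ vol P ∈ I} := by
      obtain ⟨c, hcI⟩ := hne.nonempty
      obtain ⟨W, -, hWi, hWv⟩ := Q144.PM.exists_simplex hd (hI0 hcI)
      exact ⟨⟨Q144.PM.hull W, Q144.PM.isPoly_hull hWi, by
        change Q144.PM.vol (Q144.PM.hull W) ∈ I
        rw [hWv]; exact hcI⟩⟩
    refine ⟨fun P Q => ?_⟩
    rw [hreach]
    exact Q144.PM.connected_of_no_max hd hI0 hI hmax' P.2 Q.2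

end Pool.Agent.Results.MP_208a82_co.VolumeWindow
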